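import Pool.Agent.R550.OC.Final

/-!
# Optimal-colouring reconfiguration is NP-hard on perfect graphs
-/

namespace Pool.Agent.Results.MP_391ee8_lc.PerfectHard

open Pool.Agent.NPC Pool.Agent.R550.OC Pool.Agent.R550.GB

/-- (1) Optimal-colouring reconfiguration is NP-hard on perfect graphs: every language `L` in `NP` has
a polynomial-time computable map `f` to instances `(G, k, f₀)`, where `G` is a bipartite (hence
perfect) graph with an edge, `k ≥ 3` and `f₀` is a `k`-colouring of `G`, such that
`χ(G, k, f₀) = 2` if `x ∈ L` and `χ(G, k, f₀) = k` if `x ∉ L`. (2) If some polynomial-time algorithm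
computes `χ(G, k, f₀)` for all perfect graphs `G` with an edge and all `k`-colourings `f₀` of `G`,
then `P = NP`. -/
theorem result :
    (∀ L : Set (List Bool), InNP L → ∃ f : List Bool → List (List ℕ) × ℕ × List ℕ,
      PolyTime (fun x => bits (f x)) ∧ ∀ x,
        Perfect (graph (f x).1) ∧ (graph (f x).1).Colorable 2 ∧
        (∃ u v, (graph (f x).1).Adj u v) ∧
        IsCol (graph (f x).1) (f x).2.1 (toCol (f x).2.2) ∧ 3 ≤ (f x).2.1 ∧
        (x ∈ L → chi (graph (f x).1) (f x).2.1 (toCol (f x).2.2) = 2) ∧
        (x ∉ L → chi (graph (f x).1) (f x).2.1 (toCol (f x).2.2) = (f x).2.1)) ∧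
    ((∃ F : List Bool → List Bool, PolyTime F ∧ ∀ (A : List (List ℕ)) (k : ℕ) (c : List ℕ) (m : ℕ),
        Perfect (graph A) → (∃ u v, (graph A).Adj u v) → IsCol (graph A) k (toCol c) →
        chi (graph A) k (toCol c) = m → F (bits (A, k, c)) = bits m) →
      ∀ L : Set (List Bool), InNP L → InP L) := by
  refine ⟨fun L hL => ?_, ?_⟩
  · obtain ⟨f, hf, hpr, hfL⟩ := hard L hL
    refine ⟨f, PC.toPolyTime hf, fun x => ⟨perfect_of_colorable (hpr x).colorable,
      (hpr x).colorable, (hpr x).edge, (hpr x).col, (hpr x).three, (hfL x).1, fun hx => ?_⟩⟩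
    rcases (hpr x).gap with h | h
    · exact absurd ((hfL x).2 h) hx
    · exact h
  · rintro ⟨F, hF, h⟩
    refine hard.collapse (d := fun x => decide (F (bits x) = bits (2 : ℕ))) ?_ ?_
    · exact NPC.Poly.decide_eq ((Pool.Agent.H622R2.poly_of_polyTime hF).comp
        R671.poly_bits) (NPC.Poly.const _)
    · rintro ⟨A, k, c⟩ hx
      have hp := perfect_of_colorable hx.colorable
      rw [decide_eq_true_eq]
      constructor
      · intro h1
        exact h A k c 2 hp hx.edge hx.col h1
      · intro h1
        rcases hx.gap with h2 | h2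
        · exact h2
        · have h3 := h A k c k hp hx.edge hx.col h2
          rw [h1] at h3
          have h4 : (2 : ℕ) = k := bits_injective h3
          have h5 : 3 ≤ k := hx.three
          omega

end Pool.Agent.Results.MP_391ee8_lc.PerfectHard
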